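import Mathlib
import Pool.Agent.GT63.SeqCont

/-!
Sequentially continuous maps on products of at most `ℵ₁` first countable spaces are continuous,
and uncountable products of spaces with infinite closed discrete subsets are not k-spaces.
-/

set_option autoImplicit false

open Filter Topology Set

namespace Pool.Agent.GE70

/-- An index set of cardinality at most `ℵ₁` has a linear order with countable initial
segments. -/
lemma exists_order (I : Type) (hI : Cardinal.mk I ≤ Cardinal.aleph 1) :
    ∃ _ : LinearOrder I, ∀ i : I, (Set.Iio i).Countable := by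
  let W : Type := (Cardinal.aleph 1).ord.ToType
  have hW : ∀ i : W, (Set.Iio i).Countable := by
    intro i
    rw [Cardinal.countable_iff_lt_aleph_one]
    exact Cardinal.mk_Iio_toType_ord_lt i
  have hle : Cardinal.mk I ≤ Cardinal.mk W := by
    simpa [W] using hI
  obtain ⟨g⟩ := Cardinal.le_def I W |>.1 hle
  refine ⟨LinearOrder.lift' g g.injective, fun i => ?_⟩
  have h1 : (g ⁻¹' (Set.Iio (g i))).Countable := (hW (g i)).preimage g.injective
  exact h1

section Prod

variable {I : Type} [LinearOrder I] {X : I → Type} [∀ i, TopologicalSpace (X i)]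

/-- A sequentially continuous real function on a product of first countable spaces is
continuous at every point. -/
theorem seqContinuous_real [∀ i, FirstCountableTopology (X i)]
    (hI : ∀ i : I, (Set.Iio i).Countable)
    (h : (∀ i, X i) → ℝ) (hh : SeqContinuous h) : Continuous h := by
  classical
  rw [continuous_iff_continuousAt]
  intro a
  -- restriction to the cube between `a` and `x`
  have cube : ∀ (x : ∀ i, X i) (δ : ℝ), 0 < δ →
      ∃ J : Finset I, |h (fun i => if i ∈ J then x i else a i) - h x| < δ := by
    intro x δ hδ
    set c : (I → Bool) → (∀ i, X i) := fun b i => if b i = true then x i else a i with hc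
    have hcc : Continuous c := by
      refine continuous_pi fun i => ?_
      have : Continuous (fun t : Bool => if t = true then x i else a i) :=
        continuous_of_discreteTopology
      exact this.comp (continuous_apply i)
    have hhc : SeqContinuous (h ∘ c) := by
      intro u p hu
      exact hh ((hcc.tendsto p).comp hu)
    have hcont : Continuous (h ∘ c) := GT63.seqContinuous_real hI _ hhc
    have h1 : c (fun _ => true) = x := by
      funext i; simp [hc]
    have h2 : {b | |(h ∘ c) b - h x| < δ} ∈ 𝓝 (fun _ : I => true) := by
      have hopen : IsOpen {b | |(h ∘ c) b - h x| < δ} :=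
        isOpen_lt ((hcont.sub continuous_const).abs) continuous_const
      refine hopen.mem_nhds ?_
      simp only [mem_ofPred_eq, Function.comp, h1, sub_self, abs_zero]
      exact hδ
    rw [nhds_pi, Filter.mem_pi] at h2
    obtain ⟨J, hJ, s, hs, hst⟩ := h2
    refine ⟨hJ.toFinset, ?_⟩
    have h3 : (fun i => decide (i ∈ J)) ∈ {b | |(h ∘ c) b - h x| < δ} := by
      apply hst
      intro i hi
      have : decide (i ∈ J) = true := by simpa using hi
      show decide (i ∈ J) ∈ s i
      rw [this]
      exact mem_of_mem_nhds (hs i)
    have h4 : c (fun i => decide (i ∈ J)) = fun i => if i ∈ hJ.toFinset then x i else a i := by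
      funext i
      simp [hc]
    have h5 : |(h ∘ c) (fun i => decide (i ∈ J)) - h x| < δ := h3
    rw [Function.comp, h4] at h5
    exact h5
  by_contra hcon
  rw [ContinuousAt, Metric.tendsto_nhds] at hcon
  push Not at hcon
  obtain ⟨ε, hε, hfreq⟩ := hcon
  -- neighbourhood bases
  have hb : ∀ i, ∃ U : ℕ → Set (X i), (𝓝 (a i)).HasAntitoneBasis U := fun i =>
    (𝓝 (a i)).exists_antitone_basis
  choose U hU using hb
  have hstep : ∀ (S : Finset I) (n : ℕ), ∃ (y : ∀ i, X i) (J : Finset I),
      (∀ i ∈ S, y i ∈ U i n) ∧ (∀ i, i ∉ J → y i = a i) ∧ ε / 2 ≤ |h y - h a| := by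
    intro S n
    have hbox : {z : ∀ i, X i | ∀ i ∈ S, z i ∈ U i n} ∈ 𝓝 a := by
      rw [nhds_pi]
      have := Filter.mem_pi.2 ⟨(S : Set I), S.finite_toSet, fun i => U i n,
        fun i => (hU i).mem n, Subset.rfl⟩
      refine mem_of_superset this ?_
      intro z hz i hi
      exact hz i (by simpa using hi)
    obtain ⟨x, hx1, hx2⟩ := (hfreq.and_eventually hbox).exists
    obtain ⟨J, hJ⟩ := cube x (ε / 2) (half_pos hε)
    refine ⟨fun i => if i ∈ J then x i else a i, J, ?_, ?_, ?_⟩
    · intro i hi
      by_cases hiJ : i ∈ J
      · simp only [hiJ, if_true]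
        exact hx2 i hi
      · simp only [hiJ, if_false]
        exact mem_of_mem_nhds ((hU i).mem n)
    · intro i hi
      simp [hi]
    · have hx1' : ε ≤ |h x - h a| := by
        have := hx1
        rw [Real.dist_eq] at this
        exact this
      have := abs_sub_abs_le_abs_sub (h x - h a) (h x - h (fun i => if i ∈ J then x i else a i))
      have h6 : (h x - h a) - (h x - h (fun i => if i ∈ J then x i else a i)) =
          h (fun i => if i ∈ J then x i else a i) - h a := by ring
      rw [h6] at this
      rw [abs_sub_comm] at hJ
      linarith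
  choose y J hy1 hy2 hy3 using hstep
  let S : ℕ → Finset I := fun n => Nat.rec ∅ (fun n S => S ∪ J S n) n
  have hS : ∀ n, S (n + 1) = S n ∪ J (S n) n := fun n => rfl
  have hmono : Monotone S := by
    refine monotone_nat_of_le_succ fun n => ?_
    rw [hS]
    exact Finset.subset_union_left
  have hlim : Tendsto (fun n => y (S n) n) atTop (𝓝 a) := by
    rw [tendsto_pi_nhds]
    intro i
    rcases Classical.em (∃ m, i ∈ S m) with hi | hi
    · obtain ⟨m, hm⟩ := hi
      rw [(hU i).toHasBasis.tendsto_right_iff]
      intro k _
      filter_upwards [eventually_ge_atTop m, eventually_ge_atTop k] with n hn hk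
      exact (hU i).antitone hk (hy1 (S n) n i (hmono hn hm))
    · push Not at hi
      have : ∀ n, y (S n) n i = a i := by
        intro n
        apply hy2
        intro hiJ
        apply hi (n + 1)
        rw [hS]
        exact Finset.mem_union_right _ hiJ
      simp only [this]
      exact tendsto_const_nhds
  have h7 := ((hh hlim).sub_const (h a)).abs
  rw [sub_self, abs_zero] at h7
  obtain ⟨n, hn⟩ := (h7.eventually (gt_mem_nhds (half_pos hε))).exists
  exact absurd hn (not_lt.2 (hy3 (S n) n))

/-- A sequentially continuous map from a product of at most `ℵ₁` first countable spaces into a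
completely regular space is continuous. -/
theorem seqContinuous_completelyRegular [∀ i, FirstCountableTopology (X i)]
    (hI : ∀ i : I, (Set.Iio i).Countable)
    {Y : Type*} [TopologicalSpace Y] [CompletelyRegularSpace Y]
    (f : (∀ i, X i) → Y) (hf : SeqContinuous f) : Continuous f := by
  rw [continuous_def]
  intro U hU
  rw [isOpen_iff_mem_nhds]
  intro x hx
  obtain ⟨g, hg, hgx, hgU⟩ := CompletelyRegularSpace.completely_regular (f x) Uᶜ
    hU.isClosed_compl (by simpa using hx)
  have hgf : Continuous (fun z => ((g (f z)) : ℝ)) := by
    apply seqContinuous_real hI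
    intro u p hu
    exact ((continuous_subtype_val.comp hg).tendsto _).comp (hf hu)
  have hopen : {z | ((g (f z)) : ℝ) < 1} ∈ 𝓝 x := by
    apply (isOpen_Iio.preimage hgf).mem_nhds
    simp [hgx]
  refine mem_of_superset hopen fun z hz => ?_
  by_contra hno
  have := hgU (show f z ∈ Uᶜ from hno)
  simp [this] at hz

end Prod

end Pool.Agent.GE70
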