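import Mathlib
import Pool.Agent.GE70.Prod

/-!
Graev free topological groups: existence, Hausdorffness, s-groups.
-/

set_option autoImplicit false

open Filter Topology Set

namespace Pool.Agent.GE70

/-- `F`, with the map `ι : X → F`, is the Graev free topological group of `X` with base
point `e`. -/
structure IsGraev {X : Type} [TopologicalSpace X] (e : X) (F : Type) [Group F]
    [TopologicalSpace F] [IsTopologicalGroup F] (ι : X → F) : Prop where
  /-- the map is continuous -/
  continuous : Continuous ι
  /-- the base point goes to the identity -/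
  base : ι e = 1
  /-- the image generates the group -/
  generates : Subgroup.closure (Set.range ι) = ⊤
  /-- continuous maps into topological groups which send the base point to the identity extend
  to continuous homomorphisms -/
  lift : ∀ (G : Type) [Group G] [TopologicalSpace G] [IsTopologicalGroup G] (f : X → G),
    Continuous f → f e = 1 → ∃ φ : F →* G, Continuous φ ∧ ∀ x, φ (ι x) = f x

/-- s-group, first definition: Hausdorff, and every sequentially continuous homomorphism into a
Hausdorff topological group is continuous. -/
def IsSGroup (G : Type) [Group G] [TopologicalSpace G] [IsTopologicalGroup G] : Prop :=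
  T2Space G ∧ ∀ (H : Type) [Group H] [TopologicalSpace H] [IsTopologicalGroup H] [T2Space H]
    (φ : G →* H), SeqContinuous φ → Continuous φ

/-- s-group, second definition: Hausdorff, and for some set `S` of sequences the topology is the
finest Hausdorff group topology in which every sequence of `S` converges to the identity. -/
def IsSGroupSeq (G : Type) [Group G] [τ : TopologicalSpace G] [IsTopologicalGroup G] : Prop :=
  T2Space G ∧ ∃ S : Set (ℕ → G), (∀ u ∈ S, Tendsto u atTop (𝓝 1)) ∧
    ∀ σ : TopologicalSpace G, @IsTopologicalGroup G σ _ → @T2Space G σ →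
      (∀ u ∈ S, Tendsto u atTop (@nhds G σ 1)) → τ ≤ σ

/-- k-space (for Hausdorff spaces): a set which meets every compact set in a closed set is
closed. -/
def IsKSpace (X : Type) [TopologicalSpace X] : Prop :=
  ∀ A : Set X, (∀ K : Set X, IsCompact K → IsClosed (A ∩ K)) → IsClosed A

/-! ### A path connected group (Hartman and Mycielski) -/

/-- Functions on the real line with values in a free group; two of them are close if they
differ on a subset of `[0,1)` of small outer measure. -/
def HM (X : Type) : Type := ℝ → FreeGroup X

namespace HM

variable {X : Type}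

instance : Group (HM X) := inferInstanceAs (Group (ℝ → FreeGroup X))

noncomputable instance : PseudoEMetricSpace (HM X) where
  edist f g := MeasureTheory.volume {t : ℝ | t ∈ Ico (0 : ℝ) 1 ∧ f t ≠ g t}
  edist_self f := by simp
  edist_comm f g := by simp only [ne_comm]
  edist_triangle f g h := by
    refine le_trans (MeasureTheory.measure_mono ?_) (MeasureTheory.measure_union_le _ _)
    rintro t ⟨ht, hne⟩
    by_cases h1 : f t = g t
    · right
      exact ⟨ht, fun h2 => hne (h1.trans h2)⟩
    · left
      exact ⟨ht, h1⟩

lemma edist_def (f g : HM X) :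
    edist f g = MeasureTheory.volume {t : ℝ | t ∈ Ico (0 : ℝ) 1 ∧ f t ≠ g t} := rfl

lemma edist_mul_le (f g f' g' : HM X) :
    edist (f * g) (f' * g') ≤ edist f f' + edist g g' := by
  refine le_trans (MeasureTheory.measure_mono ?_) (MeasureTheory.measure_union_le _ _)
  rintro t ⟨ht, hne⟩
  by_cases h1 : f t = f' t
  · right
    refine ⟨ht, fun h2 => hne ?_⟩
    show f t * g t = f' t * g' t
    rw [h1, h2]
  · left
    exact ⟨ht, h1⟩

lemma edist_inv (f g : HM X) : edist f⁻¹ g⁻¹ = edist f g := by
  rw [edist_def, edist_def]
  congr 1
  ext t
  have : (f⁻¹ t ≠ g⁻¹ t) ↔ (f t ≠ g t) := by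
    show ((f t)⁻¹ ≠ (g t)⁻¹) ↔ _
    rw [ne_eq, inv_inj]
  simp only [mem_ofPred_eq, this]

instance : IsTopologicalGroup (HM X) where
  continuous_mul := by
    have : LipschitzWith 2 (fun p : HM X × HM X => p.1 * p.2) := by
      intro p q
      refine (edist_mul_le _ _ _ _).trans ?_
      have h1 : edist p.1 q.1 ≤ edist p q := by
        rw [Prod.edist_eq]; exact le_max_left _ _
      have h2 : edist p.2 q.2 ≤ edist p q := by
        rw [Prod.edist_eq]; exact le_max_right _ _
      calc edist p.1 q.1 + edist p.2 q.2 ≤ edist p q + edist p q := add_le_add h1 h2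
        _ = 2 * edist p q := (two_mul _).symm
        _ = _ := by norm_num
    exact this.continuous
  continuous_inv := by
    have : Isometry (fun f : HM X => f⁻¹) := fun f g => edist_inv f g
    exact this.continuous

/-- The path from `1` to a letter, reparametrised by a function. -/
noncomputable def path (l : X) (s : ℝ) : HM X :=
  fun t => if t < s then FreeGroup.of l else 1

lemma path_continuous (l : X) : Continuous (path l) := by
  have : LipschitzWith 1 (path l) := by
    intro r s
    rw [edist_def, ENNReal.coe_one, one_mul]
    rcases le_total r s with h | h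
    · calc MeasureTheory.volume {t : ℝ | t ∈ Ico (0 : ℝ) 1 ∧ path l r t ≠ path l s t}
          ≤ MeasureTheory.volume (Ico r s) := by
            apply MeasureTheory.measure_mono
            rintro t ⟨-, hne⟩
            by_contra hno
            apply hne
            simp only [mem_Ico, not_and, not_lt] at hno
            by_cases h1 : t < r
            · simp [path, h1, h1.trans_le h]
            · have h2 := hno (not_lt.1 h1)
              simp [path, h1, not_lt.2 h2]
        _ = ENNReal.ofReal (s - r) := Real.volume_Ico
        _ = edist r s := by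
            rw [edist_comm, edist_dist, Real.dist_eq, abs_of_nonneg (sub_nonneg.2 h)]
    · calc MeasureTheory.volume {t : ℝ | t ∈ Ico (0 : ℝ) 1 ∧ path l r t ≠ path l s t}
          ≤ MeasureTheory.volume (Ico s r) := by
            apply MeasureTheory.measure_mono
            rintro t ⟨-, hne⟩
            by_contra hno
            apply hne
            simp only [mem_Ico, not_and, not_lt] at hno
            by_cases h1 : t < s
            · simp [path, h1, h1.trans_le h]
            · have h2 := hno (not_lt.1 h1)
              simp [path, h1, not_lt.2 h2]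
        _ = ENNReal.ofReal (r - s) := Real.volume_Ico
        _ = edist r s := by
            rw [edist_dist, Real.dist_eq, abs_of_nonneg (sub_nonneg.2 h)]
  exact this.continuous

end HM

section General

variable {X : Type} [TopologicalSpace X] {e : X} {F : Type} [Group F]
    [TopologicalSpace F] [IsTopologicalGroup F] {ι : X → F}

/-- If every sequentially continuous map from `X` into a topological group is continuous, then
every sequentially continuous homomorphism from `F(X)` into a topological group is. -/
theorem IsGraev.hom_continuous (h : IsGraev e F ι)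
    (hX : ∀ (H : Type) [Group H] [TopologicalSpace H] [IsTopologicalGroup H] (f : X → H),
      SeqContinuous f → Continuous f)
    (H : Type) [Group H] [TopologicalSpace H] [IsTopologicalGroup H]
    (φ : F →* H) (hφ : SeqContinuous φ) : Continuous φ := by
  have h1 : SeqContinuous (φ ∘ ι) := by
    intro u p hu
    exact hφ ((h.continuous.tendsto p).comp hu)
  have h2 : Continuous (φ ∘ ι) := hX H _ h1
  obtain ⟨ψ, hψ, hψι⟩ := h.lift H (φ ∘ ι) h2 (by simp [h.base])
  have h3 : φ = ψ := by
    refine MonoidHom.eq_of_eqOn_dense h.generates ?_
    rintro _ ⟨x, rfl⟩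
    exact (hψι x).symm
  rw [h3]
  exact hψ

/-- The image of the free group is everything. -/
lemma IsGraev.exists_word (h : IsGraev e F ι) (w : F) : ∃ W : FreeGroup X,
    FreeGroup.lift ι W = w := by
  have h1 : (FreeGroup.lift ι : FreeGroup X →* F).range = ⊤ := by
    rw [FreeGroup.range_lift_eq_closure]
    exact h.generates
  have h2 : w ∈ (FreeGroup.lift ι : FreeGroup X →* F).range := by rw [h1]; trivial
  exact h2

open Classical in
/-- Finitely many points other than the base point are separated by a continuous map into the
path connected group. -/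
lemma exists_map [T35Space X] (e : X) (L : Finset X) : ∃ f : X → HM X, Continuous f ∧
    f e = 1 ∧ ∀ l ∈ L, ∀ t ∈ Ico (0 : ℝ) 1, f l t = if l = e then 1 else FreeGroup.of l := by
  -- bump functions
  have hb : ∀ l : X, ∃ b : X → ℝ, Continuous b ∧ (l ≠ e → b l = 1) ∧ b e = 0 ∧
      ∀ l' ∈ L, l' ≠ l → b l' = 0 := by
    intro l
    by_cases hl : l = e
    · exact ⟨fun _ => 0, continuous_const, fun h => absurd hl h, rfl, fun _ _ _ => rfl⟩
    · set C : Set X := (((insert e L).erase l : Finset X) : Set X) with hC
      have hCc : IsClosed C := (Finset.finite_toSet _).isClosed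
      obtain ⟨g, hg, hgl, hgC⟩ := CompletelyRegularSpace.completely_regular l C hCc
        (by simp [hC])
      refine ⟨fun x => 1 - (g x : ℝ), by fun_prop, fun _ => by simp [hgl], ?_, ?_⟩
      · have : e ∈ C := by simp [hC, Ne.symm hl]
        simp [hgC this]
      · intro l' hl' hne
        have : l' ∈ C := by simp [hC, hne, hl']
        simp [hgC this]
  choose b hb1 hb2 hb3 hb4 using hb
  -- the map for a list of letters
  have key : ∀ M : List X, (∀ l ∈ M, l ∈ L) → M.Nodup → ∃ f : X → HM X, Continuous f ∧
      f e = (fun t => if t < 0 then f e t else 1) ∧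
      ∀ l ∈ L, ∀ t ∈ Ico (0 : ℝ) 1, f l t =
        if l ∈ M then (if l = e then 1 else FreeGroup.of l) else 1 := by
    intro M
    induction M with
    | nil =>
      intro _ _
      refine ⟨fun _ => 1, continuous_const, ?_, ?_⟩
      · funext t
        show (1 : FreeGroup X) = if t < 0 then 1 else 1
        simp
      · intro l _ t _
        simp
        rfl
    | cons a M ih =>
      intro hM hnd
      obtain ⟨f, hf1, hf2, hf3⟩ := ih (fun l hl => hM l (List.mem_cons_of_mem _ hl))
        (List.nodup_cons.1 hnd).2
      have haM : a ∉ M := (List.nodup_cons.1 hnd).1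
      refine ⟨fun x => HM.path a (b a x) * f x,
        ((HM.path_continuous a).comp (hb1 a)).mul hf1, ?_, ?_⟩
      · funext t
        by_cases ht : t < 0
        · simp [ht]
        · rw [if_neg ht]
          show HM.path a (b a e) t * f e t = 1
          rw [hf2]
          simp [HM.path, hb3, ht]
      · intro l hl t ht
        show HM.path a (b a l) t * f l t = _
        rw [hf3 l hl t ht]
        by_cases hla : l = a
        · subst hla
          by_cases hle : l = e
          · subst hle
            simp [HM.path, hb3, not_lt.2 ht.1, haM]
          · simp [HM.path, hb2 l hle, ht.2, haM, hle]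
        · have h0 : b a l = 0 := hb4 a l hl hla
          simp [HM.path, h0, not_lt.2 ht.1, hla]
  obtain ⟨f, hf1, hf2, hf3⟩ := key L.toList (fun l hl => by simpa using hl) L.nodup_toList
  refine ⟨fun x => (f e)⁻¹ * f x, continuous_const.mul hf1, by simp, ?_⟩
  intro l hl t ht
  show (f e t)⁻¹ * f l t = _
  rw [hf3 l hl t ht, hf2]
  simp [hl, not_lt.2 ht.1]

/-- The Graev free topological group of a Tychonoff space is Hausdorff. -/
theorem IsGraev.t2 [T35Space X] (h : IsGraev e F ι) : T2Space F := by
  classical
  -- every element other than the identity is outside some neighbourhood of the identity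
  have key : ∀ w : F, w ≠ 1 → ∃ U ∈ 𝓝 (1 : F), w ∉ U := by
    intro w hw
    obtain ⟨W, hW⟩ := h.exists_word w
    set g : X → FreeGroup X := fun x => if x = e then 1 else FreeGroup.of x with hg
    set ρ : FreeGroup X →* FreeGroup X := FreeGroup.lift g with hρ
    have h1 : FreeGroup.lift ι (ρ W) = w := by
      rw [← hW]
      have : (FreeGroup.lift ι).comp ρ = FreeGroup.lift ι := by
        ext x
        simp only [MonoidHom.comp_apply, hρ, FreeGroup.lift_apply_of, hg]
        by_cases hx : x = e
        · simp [hx, h.base]
        · simp [hx]
      exact DFunLike.congr_fun this W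
    have h2 : ρ W ≠ 1 := by
      intro h0
      rw [h0, map_one] at h1
      exact hw h1.symm
    obtain ⟨f, hf1, hf2, hf3⟩ := exists_map e (W.toWord.map Prod.fst).toFinset
    obtain ⟨φ, hφ, hφι⟩ := h.lift (HM X) f hf1 hf2
    -- the image of `w`
    have h3 : ∀ t ∈ Ico (0 : ℝ) 1, φ w t = ρ W := by
      intro t ht
      let ev : HM X →* FreeGroup X := Pi.evalMonoidHom (fun _ : ℝ => FreeGroup X) t
      have h4 : φ w t = FreeGroup.lift (fun x => f x t) W := by
        rw [← hW]
        have : (ev.comp φ).comp (FreeGroup.lift ι) = FreeGroup.lift (fun x => f x t) := by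
          ext x
          simp only [MonoidHom.comp_apply, FreeGroup.lift_apply_of, hφι]
          rfl
        exact DFunLike.congr_fun this W
      rw [h4, hρ]
      conv_lhs => rw [← FreeGroup.mk_toWord (x := W)]
      conv_rhs => rw [← FreeGroup.mk_toWord (x := W)]
      rw [FreeGroup.lift_mk, FreeGroup.lift_mk]
      congr 1
      refine List.map_congr_left fun p hp => ?_
      have h5 : f p.1 t = g p.1 := by
        rw [hf3 p.1 (by
          rw [List.mem_toFinset]
          exact List.mem_map_of_mem hp) t ht]
      rw [h5]
    refine ⟨φ ⁻¹' (Metric.eball (1 : HM X) 1), ?_, ?_⟩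
    · apply hφ.continuousAt.preimage_mem_nhds
      rw [map_one]
      exact Metric.eball_mem_nhds _ one_pos
    · intro hmem
      rw [mem_preimage, Metric.mem_eball, HM.edist_def] at hmem
      have h6 : {t : ℝ | t ∈ Ico (0 : ℝ) 1 ∧ φ w t ≠ (1 : HM X) t} = Ico (0 : ℝ) 1 := by
        ext t
        simp only [mem_ofPred_eq, and_iff_left_iff_imp]
        intro ht
        rw [h3 t ht]
        exact h2
      rw [h6] at hmem
      simp at hmem
  exact IsTopologicalGroup.t2Space_of_one_sep key

/-- Existence of the Graev free topological group. -/
theorem exists_isGraev {X : Type} [TopologicalSpace X] (e : X) :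
    ∃ (F : Type) (_ : Group F) (_ : TopologicalSpace F) (_ : IsTopologicalGroup F)
      (ι : X → F), IsGraev e F ι := by
  set N : Subgroup (FreeGroup X) :=
    Subgroup.normalClosure ({FreeGroup.of e} : Set (FreeGroup X)) with hN
  let F := FreeGroup X ⧸ N
  let ι : X → F := fun x => QuotientGroup.mk (FreeGroup.of x)
  let T : GroupTopology F := GroupTopology.coinduced ι
  refine ⟨F, inferInstance, T.toTopologicalSpace, T.toIsTopologicalGroup, ι, ?_⟩
  letI : TopologicalSpace F := T.toTopologicalSpace
  haveI : IsTopologicalGroup F := T.toIsTopologicalGroup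
  refine ⟨GroupTopology.coinduced_continuous ι, ?_, ?_, ?_⟩
  · exact (QuotientGroup.eq_one_iff _).2 (Subgroup.subset_normalClosure rfl)
  · rw [eq_top_iff]
    rintro w -
    obtain ⟨W, rfl⟩ := QuotientGroup.mk_surjective w
    have h1 : ∀ W : FreeGroup X, (QuotientGroup.mk' N) W ∈ Subgroup.closure (Set.range ι) := by
      intro W
      have h2 : (FreeGroup.lift ι : FreeGroup X →* F) = QuotientGroup.mk' N := by
        ext x
        simp [ι]
        rfl
      rw [← h2, ← FreeGroup.range_lift_eq_closure]
      exact ⟨W, rfl⟩
    exact h1 W
  · intro G _ _ _ f hf hfe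
    let φ : F →* G := QuotientGroup.lift N (FreeGroup.lift f) (by
      intro x hx
      have : N ≤ (FreeGroup.lift f : FreeGroup X →* G).ker := by
        rw [hN]
        refine Subgroup.normalClosure_le_normal ?_
        rintro _ rfl
        show FreeGroup.lift f (FreeGroup.of e) = 1
        simp [hfe]
      exact this hx)
    have hφι : ∀ x, φ (ι x) = f x := by
      intro x
      show QuotientGroup.lift N (FreeGroup.lift f) _ (QuotientGroup.mk (FreeGroup.of x)) = f x
      simp
    refine ⟨φ, ?_, hφι⟩
    -- the topology induced by `φ`
    let T' : GroupTopology F :=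
      { toTopologicalSpace := TopologicalSpace.induced φ inferInstance
        toIsTopologicalGroup := topologicalGroup_induced φ }
    have hle : T ≤ T' := by
      refine sInf_le ?_
      show TopologicalSpace.coinduced ι _ ≤ T'.toTopologicalSpace
      rw [← continuous_iff_coinduced_le]
      refine continuous_induced_rng.2 ?_
      have : φ ∘ ι = f := funext hφι
      rw [this]
      exact hf
    have hle' : T.toTopologicalSpace ≤ TopologicalSpace.induced φ inferInstance := hle
    exact continuous_iff_le_induced.2 hle'

/-- A homomorphism which keeps null sequences is continuous. -/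
theorem IsGraev.continuous_of_null (h : IsGraev e F ι)
    (hX : ∀ (H : Type) [Group H] [TopologicalSpace H] [IsTopologicalGroup H] (f : X → H),
      SeqContinuous f → Continuous f)
    (H : Type) [Group H] [TopologicalSpace H] [IsTopologicalGroup H] (φ : F →* H)
    (hnull : ∀ u : ℕ → F, Tendsto u atTop (𝓝 1) → Tendsto (fun n => φ (u n)) atTop (𝓝 1)) :
    Continuous φ := by
  refine h.hom_continuous hX H φ ?_
  intro u p hu
  have h2 : Tendsto (fun n => u n * p⁻¹) atTop (𝓝 1) := by
    have := hu.mul_const p⁻¹
    rwa [mul_inv_cancel] at this
  have h4 := (hnull _ h2).mul_const (φ p)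
  rw [one_mul] at h4
  refine h4.congr fun n => ?_
  simp

end General

/-- Both definitions of an s-group follow, if all sequentially continuous maps from `X` into
topological groups are continuous. -/
theorem IsGraev.isSGroup {X : Type} [TopologicalSpace X] {e : X} {F : Type} [Group F]
    [τ : TopologicalSpace F] [hτ : IsTopologicalGroup F] {ι : X → F}
    [T35Space X] (h : IsGraev e F ι)
    (hX : ∀ (H : Type) [Group H] [TopologicalSpace H] [IsTopologicalGroup H] (f : X → H),
      SeqContinuous f → Continuous f) : IsSGroup F ∧ IsSGroupSeq F := by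
  refine ⟨⟨h.t2, fun H _ _ _ _ φ hφ => h.hom_continuous hX H φ hφ⟩, h.t2,
    {u | Tendsto u atTop (𝓝 1)}, fun u hu => hu, ?_⟩
  intro σ hσ _ hnull
  have h1 : @Continuous F F τ σ (MonoidHom.id F) :=
    @IsGraev.continuous_of_null X _ e F _ τ hτ ι h hX F _ σ hσ (MonoidHom.id F) hnull
  exact continuous_id_iff_le.1 h1

end Pool.Agent.GE70
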