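import Mathlib
import Pool.Agent.GE70.Graev

/-!
Uncountable products of spaces with infinite closed discrete subsets are not k-spaces.
-/

set_option autoImplicit false

open Filter Topology Set

namespace Pool.Agent.GE70

/-- The space has an infinite closed discrete subset: an infinite set all subsets of which are
closed. -/
def HasClosedDiscrete (X : Type) [TopologicalSpace X] : Prop :=
  ∃ D : Set X, D.Infinite ∧ ∀ A : Set X, A ⊆ D → IsClosed A

/-- A sequential Hausdorff space is a k-space. -/
lemma kSpace_of_sequential {X : Type} [TopologicalSpace X] [T2Space X] [SequentialSpace X] :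
    IsKSpace X := by
  intro A hA
  apply IsSeqClosed.isClosed
  intro u p hu hup
  have hK := hup.isCompact_insert_range
  have h1 := hA _ hK
  have h2 : p ∈ A ∩ insert p (range u) := by
    refine h1.mem_of_tendsto hup (Eventually.of_forall fun n => ⟨hu n, ?_⟩)
    exact mem_insert_of_mem _ (mem_range_self n)
  exact h2.1

section

variable {I : Type} {X : I → Type} [∀ i, TopologicalSpace (X i)]

theorem not_kSpace [∀ i, T2Space (X i)] (a : ∀ i, X i) (J : Set I) (hJ : ¬ J.Countable)
    (hX : ∀ i ∈ J, HasClosedDiscrete (X i)) : ¬ IsKSpace (∀ i, X i) := by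
  classical
  have hs : ∀ i, ∃ s : ℕ → X i, i ∈ J → (Function.Injective s ∧ ∀ A : Set ℕ, IsClosed (s '' A)) := by
    intro i
    by_cases hi : i ∈ J
    · obtain ⟨D, hD, hDc⟩ := hX i hi
      refine ⟨fun n => (hD.natEmbedding D n : X i), fun _ => ⟨?_, ?_⟩⟩
      · intro m n hmn
        exact (hD.natEmbedding D).injective (Subtype.ext hmn)
      · intro A
        apply hDc
        rintro _ ⟨n, -, rfl⟩
        exact (hD.natEmbedding D n).2
    · exact ⟨fun _ => a i, fun h => absurd h hi⟩
  choose s hs using hs
  -- the closed pieces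
  let P : ℕ → Set (∀ i, X i) := fun n =>
    {x | (∀ i, i ∉ J → x i = a i) ∧ ∀ T : Finset I, (T : Set I) ⊆ J → n < T.card →
      ∃ i ∈ T, x i = s i n}
  have hP : ∀ n, IsClosed (P n) := by
    intro n
    have h1 : P n = (⋂ (i : I) (_ : i ∉ J), {x | x i = a i}) ∩
        ⋂ (T : Finset I) (_ : (T : Set I) ⊆ J) (_ : n < T.card),
          ⋃ i ∈ T, {x : ∀ i, X i | x i = s i n} := by
      ext x
      simp [P]
    rw [h1]
    refine IsClosed.inter ?_ ?_
    · refine isClosed_iInter fun i => isClosed_iInter fun _ => ?_
      exact isClosed_eq (continuous_apply i) continuous_const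
    · refine isClosed_iInter fun T => isClosed_iInter fun _ => isClosed_iInter fun _ => ?_
      refine Set.Finite.isClosed_biUnion T.finite_toSet fun i _ => ?_
      exact isClosed_eq (continuous_apply i) continuous_const
  let A : Set (∀ i, X i) := ⋃ n : ℕ, P (n + 1)
  intro hk
  have hJinf : J.Infinite := fun hfin => hJ hfin.countable
  -- `A` meets compact sets in closed sets
  have hA : ∀ K : Set (∀ i, X i), IsCompact K → IsClosed (A ∩ K) := by
    intro K hK
    -- bounds
    have hb : ∀ i, ∃ k : ℕ, i ∈ J → ∀ n, s i n ∈ (fun x : ∀ i, X i => x i) '' K → n < k := by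
      intro i
      by_cases hi : i ∈ J
      · have hKi : IsCompact ((fun x : ∀ i, X i => x i) '' K) :=
          hK.image (continuous_apply i)
        set B : Set ℕ := {n | s i n ∈ (fun x : ∀ i, X i => x i) '' K} with hB
        have hBfin : B.Finite := by
          have h1 : IsCompact (s i '' B) := by
            refine hKi.of_isClosed_subset ((hs i hi).2 B) ?_
            rintro _ ⟨n, hn, rfl⟩
            exact hn
          have h2 : DiscreteTopology (s i '' B) := by
            rw [discreteTopology_iff_forall_isClosed]
            intro C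
            have h3 : IsClosed ((Subtype.val : (s i '' B) → X i) '' C) := by
              have h4 : (Subtype.val : (s i '' B) → X i) '' C =
                  s i '' {n | n ∈ B ∧ ∃ h : s i n ∈ s i '' B, (⟨s i n, h⟩ : s i '' B) ∈ C} := by
                ext z
                constructor
                · rintro ⟨⟨w, hw⟩, hwC, rfl⟩
                  obtain ⟨n, hn, rfl⟩ := hw
                  exact ⟨n, ⟨hn, ⟨n, hn, rfl⟩, hwC⟩, rfl⟩
                · rintro ⟨n, ⟨hn, h, hC⟩, rfl⟩
                  exact ⟨⟨s i n, h⟩, hC, rfl⟩
              rw [h4]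
              exact (hs i hi).2 _
            have := h3.preimage (continuous_subtype_val (p := fun z => z ∈ s i '' B))
            rwa [preimage_image_eq _ Subtype.val_injective] at this
          have h5 : (s i '' B).Finite := by
            have : CompactSpace (s i '' B) := isCompact_iff_compactSpace.1 h1
            have : Finite (s i '' B) := finite_of_compact_of_discrete
            exact Set.toFinite _
          exact Finite.of_finite_image h5 (hs i hi).1.injOn
        obtain ⟨k, hk⟩ := hBfin.bddAbove
        exact ⟨k + 1, fun _ n hn => Nat.lt_succ_of_le (hk hn)⟩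
      · exact ⟨0, fun h => absurd h hi⟩
    choose k hk using hb
    -- infinitely many with the same bound
    have hm : ∃ m, {i | i ∈ J ∧ k i = m}.Infinite := by
      by_contra hcon
      push Not at hcon
      apply hJ
      have : J = ⋃ m, {i | i ∈ J ∧ k i = m} := by
        ext i; simp
      rw [this]
      exact countable_iUnion fun m => (hcon m).countable
    obtain ⟨m, hm⟩ := hm
    have h6 : A ∩ K = (⋃ n ∈ Finset.range m, P (n + 1)) ∩ K := by
      ext x
      constructor
      · rintro ⟨hxA, hxK⟩
        obtain ⟨n, hn⟩ := mem_iUnion.1 hxA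
        obtain ⟨T, hT, hTc⟩ := hm.exists_subset_card_eq (n + 2)
        obtain ⟨i, hi, hxi⟩ := hn.2 T (fun i hi => (hT hi).1) (by omega)
        have h7 := hk i (hT hi).1 (n + 1) ⟨x, hxK, hxi⟩
        rw [(hT hi).2] at h7
        refine ⟨mem_iUnion₂.2 ⟨n, Finset.mem_range.2 (by omega), hn⟩, hxK⟩
      · rintro ⟨hxA, hxK⟩
        obtain ⟨n, -, hn⟩ := mem_iUnion₂.1 hxA
        exact ⟨mem_iUnion.2 ⟨n, hn⟩, hxK⟩
    rw [h6]
    refine IsClosed.inter ?_ hK.isClosed
    exact Set.Finite.isClosed_biUnion (Finset.finite_toSet _) fun n _ => hP (n + 1)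
  have hcl := hk A hA
  -- a point of the closure which is not in `A`
  let b : ∀ i, X i := fun i => if i ∈ J then s i 0 else a i
  have hbA : b ∉ A := by
    intro hb
    obtain ⟨n, hn⟩ := mem_iUnion.1 hb
    obtain ⟨T, hT, hTc⟩ := hJinf.exists_subset_card_eq (n + 2)
    obtain ⟨i, hi, hbi⟩ := hn.2 T hT (by omega)
    have hiJ : i ∈ J := hT hi
    simp only [b, hiJ, if_true] at hbi
    have := (hs i hiJ).1 hbi
    omega
  apply hbA
  rw [← hcl.closure_eq, mem_closure_iff_nhds]
  intro t ht
  rw [nhds_pi, Filter.mem_pi] at ht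
  obtain ⟨S, hS, V, hV, hVt⟩ := ht
  let n := hS.toFinset.card
  refine ⟨fun i => if i ∈ S then b i else if i ∈ J then s i (n + 1) else a i, hVt ?_, ?_⟩
  · intro i hi
    simp only [hi, if_true]
    exact mem_of_mem_nhds (hV i)
  · refine mem_iUnion.2 ⟨n, ?_, ?_⟩
    · intro i hi
      simp [b, hi]
    · intro T hT hTc
      have : ∃ i ∈ T, i ∉ S := by
        by_contra hcon
        push Not at hcon
        have h8 : T ⊆ hS.toFinset := fun i hi => by simpa using hcon i hi
        have := Finset.card_le_card h8
        omega
      obtain ⟨i, hi, hiS⟩ := this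
      refine ⟨i, hi, ?_⟩
      have hiJ : i ∈ J := hT hi
      simp [hiS, hiJ]

end

end Pool.Agent.GE70
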